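import Pool.Agent.H15.HLU.Targets

/-! Row STP of `hlu_modules`: one step of the inflation. -/

set_option autoImplicit false

namespace Pool.Agent.H67.HLU

open Pool.Agent.H51.Homog Pool.Agent.H22.HSQ Pool.Agent.H15.HLS Pool.Agent.H15.HLU

theorem unit_two {N : ℕ} (h : Nat.Coprime N 6) : IsUnit (2 : ZMod N) := by
  have h1 : Nat.Coprime 2 N := (Nat.Coprime.coprime_dvd_right (by norm_num : 2 ∣ 6) h).symm
  have h2 := (ZMod.isUnit_iff_coprime 2 N).2 h1
  simpa using h2

theorem unit_bb {α : Type} {N : ℕ} (h : Nat.Coprime N 6) (a c a₁ c₁ r k : α) :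
    IsUnit (bb a c a₁ c₁ r k : ZMod N) := by
  unfold bb
  split_ifs
  · exact unit_two h
  · exact (unit_two h).neg
  · exact isUnit_one
  · exact isUnit_one

theorem pf_STP (hSOL : T_SOL) : T_STP := by
  intro α β _ _ L w π L' hL hLift a c a₁ c₁ ha hc h1 h2 N kill hN hN6 hk
  have : NeZero N := ⟨hN.ne'⟩
  obtain ⟨hlat, hproj, hrow, hcnt⟩ := hLift
  have hr : ∀ x, Function.Injective (L' x) := fun x => (hlat.1 x).injective
  have hcl : ∀ y, Function.Injective (fun x => L' x y) := fun y => (hlat.2 y).injective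
  let b : β → β → ZMod N := fun x y => bb a c a₁ c₁ (π x) (π y)
  let f : β → β → ZMod N := fun x y => ff kill a c (π x) (π y)
  have hb : ∀ x y, IsUnit (b x y) := fun x y => unit_bb hN6 _ _ _ _ _ _
  let L2 : β × ZMod N → β × ZMod N → β × ZMod N := fun X Y =>
    (L' X.1 Y.1, X.2 + b X.1 Y.1 * Y.2 + f X.1 Y.1)
  have hL2 : ∀ X Y, L2 X Y = (L' X.1 Y.1, X.2 + b X.1 Y.1 * Y.2 + f X.1 Y.1) := fun _ _ => rfl
  have inj1 : ∀ X, Function.Injective (L2 X) := by
    rintro ⟨x, s⟩ ⟨y, t⟩ ⟨y', t'⟩ h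
    rw [hL2, hL2, Prod.mk.injEq] at h
    obtain ⟨e1, e2⟩ := h
    have e3 : y = y' := hr x e1
    subst e3
    have e4 : b x y * t = b x y * t' := by
      have e5 : s + b x y * t + f x y = s + b x y * t' + f x y := e2
      have e6 := add_right_cancel e5
      exact add_left_cancel e6
    rw [(hb x y).mul_left_cancel e4]
  have inj2 : ∀ Y, Function.Injective (fun X => L2 X Y) := by
    rintro ⟨y, t⟩ ⟨x, s⟩ ⟨x', s'⟩ h
    have h' : L2 (x, s) (y, t) = L2 (x', s') (y, t) := h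
    rw [hL2, hL2, Prod.mk.injEq] at h'
    obtain ⟨e1, e2⟩ := h'
    have e3 : x = x' := hcl y e1
    subst e3
    have e5 : s + b x y * t + f x y = s' + b x y * t + f x y := e2
    rw [add_right_cancel (add_right_cancel e5)]
  refine ⟨L2, ⟨⟨fun X => Finite.injective_iff_bijective.1 (inj1 X),
    fun Y => Finite.injective_iff_bijective.1 (inj2 Y)⟩, fun X Y => hproj _ _, ?_, ?_⟩⟩
  · -- row
    rintro ⟨x, s⟩ ⟨y, t⟩ ⟨x', s'⟩ ⟨y', t'⟩ hX hY e1 e2
    rw [hL2, hL2, Prod.mk.injEq] at e1 e2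
    obtain ⟨p1, p2⟩ := e1
    obtain ⟨q1, q2⟩ := e2
    simp only at p1 p2 q1 q2
    by_cases hxx : x' = x
    · exfalso
      subst hxx
      have hyy : y' = y := hr _ p1
      subst hyy
      apply hY
      have e3 : b x' y' * (2 * t') = b x' y' * (2 * t) := by linear_combination p2 - q2
      have e4 := (unit_two hN6).mul_left_cancel ((hb x' y').mul_left_cancel e3)
      rw [e4]
    · by_cases hyy : y' = y
      · exfalso
        subst hyy
        exact hxx (hcl y' p1)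
      · exact hrow x y x' y' hxx hyy p1 q1
  · -- count
    rintro ⟨x, s⟩ ⟨y, t⟩ r' k' hr' hk' e1 e2
    show {p : (β × ZMod N) × (β × ZMod N) | π p.1.1 = r' ∧ π p.2.1 = k' ∧
      L2 p.1 p.2 = L2 (x, s) (y, t) ∧ L2 p.1 (y, t) = L2 (x, s) p.2}.ncard =
      w (π x) (π y) r' k' * wt kill N a c a₁ c₁ (π x) (π y) r' k'
    rw [← hcnt x y r' k' hr' hk' e1 e2,
      ← hSOL α L hL a c a₁ c₁ ha hc h1 h2 (π x) (π y) r' k' hr' hk' e1 e2 N kill hN hN6 hk s t,
      ← Set.ncard_prod]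
    rw [← Set.ncard_image_of_injective _ (Equiv.prodProdProdComm β β (ZMod N) (ZMod N)).injective]
    congr 1
    ext ⟨⟨x', s'⟩, ⟨y', t'⟩⟩
    constructor
    · rintro ⟨g1, g2, g3, g4⟩
      rw [hL2, hL2, Prod.mk.injEq] at g3 g4
      refine ⟨((x', y'), (s', t')), ⟨⟨g1, g2, g3.1, g4.1⟩, ?_, ?_⟩, rfl⟩
      · have g5 := g3.2
        simp only [b, f] at g5
        have g1' : π x' = r' := g1
        have g2' : π y' = k' := g2
        rw [g1', g2'] at g5
        exact g5
      · have g5 := g4.2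
        simp only [b, f] at g5
        have g1' : π x' = r' := g1
        have g2' : π y' = k' := g2
        rw [g1', g2'] at g5
        exact g5
    · rintro ⟨⟨⟨x1, y1⟩, ⟨s1, t1⟩⟩, ⟨⟨g1, g2, g3, g4⟩, g5, g6⟩, g7⟩
      have g8 : (((x1, s1), (y1, t1)) : (β × ZMod N) × (β × ZMod N)) =
        ((x', s'), (y', t')) := g7
      rw [Prod.mk.injEq, Prod.mk.injEq, Prod.mk.injEq] at g8
      obtain ⟨⟨rfl, rfl⟩, rfl, rfl⟩ := g8
      have g1' : π x1 = r' := g1
      have g2' : π y1 = k' := g2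
      refine ⟨g1, g2, ?_, ?_⟩
      · rw [hL2, hL2, Prod.mk.injEq]
        refine ⟨g3, ?_⟩
        simp only [b, f]
        rw [g1', g2']
        exact g5
      · rw [hL2, hL2, Prod.mk.injEq]
        refine ⟨g4, ?_⟩
        simp only [b, f]
        rw [g1', g2']
        exact g6

end Pool.Agent.H67.HLU
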